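import Pool.Agent.H.MP_153b2f_an.Defs

set_option autoImplicit false

namespace Pool.Agent.H.MP_b83b91_an
open Pool.Agent.H.MP_153b2f_an

variable {G : Type} [TopologicalSpace G] (Γ : Etale G)

def Principal : Prop := ∀ g, Γ.r g = Γ.s g → g = Γ.s g

def Amenable : Prop :=
  ∃ (ι : Type) (_ : Preorder ι) (_ : IsDirected ι (· ≤ ·)) (_ : Nonempty ι) (ξ : ι → G → ℝ),
    (∀ i, Continuous (ξ i) ∧ HasCompactSupport (ξ i) ∧ (∀ g, 0 ≤ ξ i g) ∧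
      ∀ x ∈ Γ.units, HasSum (fun h : {h // Γ.r h = x} => ξ i h) 1) ∧
    ∀ K : Set G, IsCompact K → ∀ ε : ℝ, 0 < ε → ∃ i₀, ∀ i, i₀ ≤ i → ∀ g ∈ K,
      ∀ T : Finset G, (∀ h ∈ T, Γ.r h = Γ.s g) → ∑ h ∈ T, |ξ i (Γ.mul g h) - ξ i h| ≤ ε

def gen (S : Set G) : Set G := ⋂₀ {H | Γ.IsSub H ∧ S ⊆ H}

def Decomp (H : Set G) (C : Set (Set G)) : Prop :=
  ∀ K : Set G, K ⊆ H → IsOpen K → IsCompact (closure K) →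
    ∃ U₀ U₁ : Set G, IsOpen U₀ ∧ IsOpen U₁ ∧ U₀ ∪ U₁ = H ∩ Γ.units ∧
      gen Γ {h | h ∈ K ∧ Γ.s h ∈ U₀} ∈ C ∧ gen Γ {h | h ∈ K ∧ Γ.s h ∈ U₁} ∈ C

def FDC : Prop :=
  ∀ D : Set (Set G), (∀ H ∈ D, IsOpen H ∧ Γ.IsSub H) →
    (∀ H, IsOpen H → Γ.IsSub H → IsCompact (closure H) → H ∈ D) →
    (∀ H, IsOpen H → Γ.IsSub H → Decomp Γ H D → H ∈ D) → Set.univ ∈ D

end Pool.Agent.H.MP_b83b91_an
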