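import Pool.Agent.H.MP_153b2f_an.C
import Pool.Agent.H.MP_b83b91_an.Defs

set_option autoImplicit false

namespace Pool.Agent.H.MP_b83b91_an
open Pool.Agent.H.MP_153b2f_an Filter Equiv Relation

theorem fdc_imp {G : Type} [TopologicalSpace G] (Γ : Etale G) (h : FDC Γ) : Γ.FDC := by
  intro D h1 h2 h3
  refine h D h1 h2 fun H a b c => h3 H a b fun K k1 k2 k3 => ?_
  obtain ⟨U₀, U₁, u0, u1, u2, u3, u4⟩ := c K k1 k2 k3
  exact ⟨U₀, U₁, u0, u1, u2,
    ⟨_, u3, fun g hg H' hH' => hg H' ⟨hH'.1, fun x hx => hH'.2 ⟨hx.1, hx.2.1⟩⟩⟩,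
    ⟨_, u4, fun g hg H' hH' => hg H' ⟨hH'.1, fun x hx => hH'.2 ⟨hx.1, hx.2.1⟩⟩⟩⟩

variable {X : Type} {Λ : Subgroup (Perm X)}

theorem principal : Principal (ET Λ) := by
  intro g e
  obtain ⟨t, _, ht⟩ := g.2
  obtain ⟨A, hA⟩ := zorn_subset {A : Set X | ∀ a ∈ A, t a ∉ A} (fun c hc hch =>
    ⟨⋃₀ c, fun a ⟨A, hA, ha⟩ ⟨A', hA', ha'⟩ => by
      rcases hch.total hA hA' with h | h
      · exact hc hA' a (h ha) ha'
      · exact hc hA a ha (h ha'), fun s hs => Set.subset_sUnion_of_mem hs⟩)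
  have k := key (g := g) (h := g) (Eq.symm e)
  have h1 : {p : X × X | p.2 ∈ A} ∉ g.1 := fun h => by
    obtain ⟨p, hp⟩ := Ultrafilter.nonempty_of_mem (mi ht (mi h ((k A).1 h)))
    exact hA.1 p.2 hp.2.1 (Eq.subst (motive := fun x => x ∈ A) hp.1 hp.2.2)
  have h2 : {p : X × X | p.1 ∈ A} ∉ g.1 := fun h => h1 ((k A).2 h)
  have h3 : {p : X × X | p.2 ∈ t '' A} ∉ g.1 := fun h => h1 (ms g.1 (mi ht ((k _).1 h))
    fun p hp => by
      obtain ⟨a, ha, e1⟩ := hp.2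
      have e2 : p.1 = t p.2 := hp.1
      have e3 : a = p.2 := t.injective (e1.trans e2)
      exact (e3 ▸ ha : p.2 ∈ A))
  refine (s_of_unit (ms g.1 (mi ht (mi (Ultrafilter.compl_mem_iff_notMem.2 h1)
    (mi (Ultrafilter.compl_mem_iff_notMem.2 h2) (Ultrafilter.compl_mem_iff_notMem.2 h3))))
    fun p hp => ?_)).symm
  have e2 : p.1 = t p.2 := hp.1
  by_contra hne
  have h4 : ¬ p.1 = p.2 := hne
  have h5 := hA.2 (y := insert p.2 A) (by
    rintro a (rfl | ha) (h | h)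
    · exact h4 (e2.trans h)
    · exact hp.2.2.1 (e2 ▸ h : p.1 ∈ A)
    · exact hp.2.2.2 ⟨a, ha, h⟩
    · exact hA.1 a ha h) (Set.subset_insert _ _)
  exact hp.2.1 (h5 (Set.mem_insert _ _))

theorem drops {μ : ℕ → ℕ} (h : ∀ k, μ (k + 1) ≤ μ k) (n : ℕ) :
    ((Finset.range n).filter fun k => μ k ≠ μ (k + 1)).card + μ n ≤ μ 0 := by
  induction n with
  | zero => simp
  | succ n ih =>
    rw [Finset.range_add_one, Finset.filter_insert]
    have := h n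
    split_ifs with e
    · have := Finset.card_insert_le n ((Finset.range n).filter fun k => μ k ≠ μ (k + 1))
      omega
    · omega

def RR (F : Set (Perm X)) (a b : X) : Prop := ∃ t ∈ F, a = t b ∨ b = t a

theorem RR_symm (F : Set (Perm X)) (a b : X) (h : RR F a b) : RR F b a :=
  h.imp fun _ h => ⟨h.1, h.2.symm⟩

theorem ball {F : Set (Perm X)} (h1 : F.Finite) (h2 : F ⊆ Λ) (n : ℕ) :
    ∃ F' : Set (Perm X), F'.Finite ∧ F' ⊆ Λ ∧ ∀ a b, N (RR F) n a b → ∃ t ∈ F', b = t a := by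
  induction n with
  | zero =>
    refine ⟨{1}, Set.finite_singleton _, Set.singleton_subset_iff.2 (Subgroup.one_mem _), ?_⟩
    rintro a b rfl
    exact ⟨1, rfl, rfl⟩
  | succ n ih =>
    obtain ⟨F', h3, h4, h5⟩ := ih
    refine ⟨Set.image2 (· * ·) (insert 1 (F ∪ (·⁻¹) '' F)) F',
      ((h1.union (h1.image _)).insert _).image2 _ h3, ?_, ?_⟩
    · rintro _ ⟨s, rfl | hs | ⟨s, hs, rfl⟩, t, ht, rfl⟩
      · exact Λ.mul_mem Λ.one_mem (h4 ht)
      · exact Λ.mul_mem (h2 hs) (h4 ht)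
      · exact Λ.mul_mem (Λ.inv_mem (h2 hs)) (h4 ht)
    · rintro a b ⟨z, h6, h7⟩
      obtain ⟨t, ht, e⟩ := h5 a z h6
      rcases h7 with rfl | ⟨s, hs, h7 | h7⟩
      · exact ⟨_, ⟨1, Or.inl rfl, t, ht, rfl⟩, e⟩
      · refine ⟨_, ⟨_, Or.inr (Or.inr ⟨s, hs, rfl⟩), t, ht, rfl⟩, ?_⟩
        show b = s⁻¹ (t a)
        rw [← e, h7]; simp
      · exact ⟨_, ⟨s, Or.inr (Or.inl hs), t, ht, rfl⟩, by rw [h7, e]; rfl⟩

def P1 (Λ : Subgroup (Perm X)) (d : ℕ) : Prop :=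
  ∀ F : Set (Perm X), F.Finite → F ⊆ Λ → ∃ c : X → Fin (d + 1),
    ∃ F' : Set (Perm X), F'.Finite ∧ F' ⊆ Λ ∧ ∀ x y,
      EqvGen (fun a b => c a = c b ∧ ∃ t ∈ F, a = t b) x y → ∃ t ∈ F', x = t y

open Classical in
theorem vecs {d : ℕ} (hP : P1 Λ d) {F : Set (Perm X)} (h1 : F.Finite) (h2 : F ⊆ Λ) (n : ℕ) :
    ∃ z : ℕ → X → X, (∃ F' : Set (Perm X), F'.Finite ∧ F' ⊆ Λ ∧
      ∀ k < n, ∀ x, ∃ t ∈ F', z k x = t x) ∧ ∀ t ∈ F, ∀ x,
        ((Finset.range n).filter fun k => z k (t x) ≠ z k x).card ≤ d := by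
  obtain ⟨FL, l1, l2, l3⟩ := ball h1 h2 (4 * n + 4)
  obtain ⟨c, F', f1, f2, f3⟩ := hP FL l1 l2
  have hW : ∀ x j, ∃ w, N (RR F) j x w ∧ ∀ a, N (RR F) j x a → (c w : ℕ) ≤ c a := fun x j =>
    ⟨Function.argminOn (fun a => (c a : ℕ)) {a | N (RR F) j x a} ⟨x, N.refl j x⟩,
      Function.argminOn_mem (fun a => (c a : ℕ)) {a | N (RR F) j x a} _,
      fun a ha => Function.argminOn_le (fun a => (c a : ℕ)) {a | N (RR F) j x a} ha⟩
  choose W w1 w2 using hW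
  have hE := EqvGen.is_equivalence (fun a b => c a = c b ∧ ∃ t ∈ FL, a = t b)
  have hr : ∃ ρ : X → X, (∀ a, EqvGen (fun a b => c a = c b ∧ ∃ t ∈ FL, a = t b) (ρ a) a) ∧
      ∀ a b, EqvGen (fun a b => c a = c b ∧ ∃ t ∈ FL, a = t b) a b → ρ a = ρ b :=
    ⟨fun a => (Quotient.mk ⟨_, hE⟩ a).out, fun a => Quotient.mk_out (s := ⟨_, hE⟩) a,
      fun a b h => congrArg Quotient.out (Quotient.sound (s := ⟨_, hE⟩) h)⟩
  obtain ⟨ρ, r1, r2⟩ := hr
  refine ⟨fun k x => ρ (W x (2 * k + 1)), ⟨Set.image2 (· * ·) F' FL, f1.image2 _ l1, ?_, ?_⟩, ?_⟩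
  · rintro _ ⟨s, hs, t, ht, rfl⟩
    exact Λ.mul_mem (f2 hs) (l2 ht)
  · intro k hk x
    obtain ⟨s, hs, e⟩ := f3 _ _ (r1 (W x (2 * k + 1)))
    obtain ⟨t, ht, e'⟩ := l3 _ _ ((w1 x (2 * k + 1)).mono (by omega))
    exact ⟨_, ⟨s, hs, t, ht, rfl⟩, by
      show ρ _ = s (t x)
      rw [e, ← e']⟩
  · intro t ht x
    have a1 : N (RR F) 1 x (t x) := N.one ⟨t, ht, Or.inr rfl⟩
    have a2 := a1.symm (RR_symm F)
    have h3 := drops (μ := fun k => c (W x (2 * k)))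
      (fun k => w2 x _ _ ((w1 x _).mono (by omega))) n
    have h4 := (c (W x (2 * 0))).2
    refine (Finset.card_le_card fun k hk => ?_).trans
      (by omega : ((Finset.range n).filter fun k =>
        (c (W x (2 * k)) : ℕ) ≠ c (W x (2 * (k + 1)))).card ≤ d)
    rw [Finset.mem_filter] at hk ⊢
    refine ⟨hk.1, fun e => hk.2 (r2 _ _ (EqvGen.rel _ _ ⟨Fin.ext ?_, l3 _ _ ?_⟩))⟩
    · have b1 := w2 x (2 * k + 1) _ ((w1 x (2 * k)).mono (by omega))
      have b2 := w2 x (2 * (k + 1)) _ ((w1 x (2 * k + 1)).mono (by omega))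
      have b3 := w2 (t x) (2 * k + 1) _ ((a2.trans (w1 x (2 * k))).mono (by omega))
      have b4 := w2 x (2 * (k + 1)) _ ((a1.trans (w1 (t x) (2 * k + 1))).mono (by omega))
      omega
    · have := Finset.mem_range.1 hk.1
      exact ((((w1 x (2 * k + 1)).symm (RR_symm F)).trans a1).trans
        (w1 (t x) (2 * k + 1))).mono (by omega)

def Z (z : X → X) : Set (X × X) := {p | p.2 = z p.1}

theorem Z_uniq {z : X → X} {h h' : GG Λ} (e : rG h = rG h') (a : Z z ∈ h.1) (a' : Z z ∈ h'.1) :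
    h = h' := by
  have key : ∀ h : GG Λ, Z z ∈ h.1 → h.1 = (rG h).1.map fun p => (p.1, z p.1) := fun h a =>
    (umap_congr (u := h.1) (f := fun p => (p.1, z p.1)) (g := id)
      (ms h.1 a fun p hp => Prod.ext rfl (Eq.symm hp))).symm
  exact Subtype.ext (by rw [key h a, key h' a', e])

theorem Z_fin {z : X → X} {F : Set (Perm X)} (h1 : F.Finite) (h3 : ∀ x, ∃ t ∈ F, z x = t x)
    (u : Ultrafilter (X × X)) : ∃ t ∈ F, {p : X × X | p.1 = t⁻¹ (z p.1)} ∈ u := by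
  refine (Ultrafilter.finite_biUnion_mem_iff (s := fun t : Perm X =>
    {p : X × X | p.1 = t⁻¹ (z p.1)}) h1).1 (ms u Filter.univ_mem fun p _ => ?_)
  obtain ⟨t, ht, e⟩ := h3 p.1
  exact Set.mem_biUnion ht (by simp [e])

open Classical in
theorem one_le {z : X → X} {x : GG Λ} {T : Finset (GG Λ)} (hT : ∀ h ∈ T, rG h = x) :
    ∑ h ∈ T, (if Z z ∈ h.1 then (1 : ℝ) else 0) ≤ 1 := by
  rw [Finset.sum_boole]
  have : (T.filter fun h => Z z ∈ h.1).card ≤ 1 := Finset.card_le_one.2 fun a ha b hb => by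
    rw [Finset.mem_filter] at ha hb
    exact Z_uniq ((hT a ha.1).trans (hT b hb.1).symm) ha.2 hb.2
  exact_mod_cast this

open Classical in
theorem amen1 {d : ℕ} (hP : P1 Λ d) {K : Set (GG Λ)} (hK : IsCompact K) (n : ℕ) :
    ∃ ξ : GG Λ → ℝ, (Continuous ξ ∧ HasCompactSupport ξ ∧ (∀ g, 0 ≤ ξ g) ∧
      ∀ x ∈ (ET Λ).units, HasSum (fun h : {h // rG h = x} => ξ h) 1) ∧ ∀ g ∈ K,
      ∀ T : Finset (GG Λ), (∀ h ∈ T, rG h = sG g) →
        ∑ h ∈ T, |ξ (mG g h) - ξ h| ≤ 2 * d / (n + 1) := by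
  obtain ⟨F, h1, h2, h3⟩ := cpt_fin (K := K) (by rwa [hK.isClosed.closure_eq])
  obtain ⟨z, ⟨F', f1, f2, f3⟩, h4⟩ := vecs hP h1 h2 (n + 1)
  have hn : (0 : ℝ) < n + 1 := by positivity
  refine ⟨fun g => (∑ k ∈ Finset.range (n + 1), if Z (z k) ∈ g.1 then (1 : ℝ) else 0) / (n + 1),
    ⟨?_, ?_, fun g => by positivity, fun x hx => ?_⟩, fun g hg T hT => ?_⟩
  · refine (continuous_finset_sum _ fun k _ => ?_).div_const _
    have : IsClopen (B (Z (z k)) : Set (GG Λ)) :=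
      ⟨(ultrafilter_isClosed_basic _).preimage continuous_subtype_val, B_open _⟩
    exact continuous_if (fun a ha => by
      rw [show {x : GG Λ | Z (z k) ∈ x.1} = B (Z (z k)) from rfl, this.frontier_eq] at ha
      exact ha.elim) continuousOn_const continuousOn_const
  · refine fin_cpt (f1.image (·⁻¹)) ?_ fun g hg => ?_
    · rintro _ ⟨t, ht, rfl⟩
      exact Λ.inv_mem (f2 ht)
    · obtain ⟨k, hk, h5⟩ := Finset.exists_ne_zero_of_sum_ne_zero (div_ne_zero_iff.1 hg).1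
      have h6 : Z (z k) ∈ g.1 := by
        by_contra h
        exact h5 (if_neg h)
      obtain ⟨t, ht, h7⟩ := Z_fin f1 (f3 k (Finset.mem_range.1 hk)) g.1
      refine ⟨_, ⟨t, ht, rfl⟩, ms g.1 (mi h6 h7) fun p hp => ?_⟩
      have e1 : p.2 = z k p.1 := hp.1
      show p.1 = t⁻¹ p.2
      rw [e1]
      exact hp.2
  · have h5 : ∀ k ∈ Finset.range (n + 1), HasSum (fun h : {h // rG h = x} =>
        if Z (z k) ∈ h.1.1 then (1 : ℝ) else 0) 1 := by
      intro k hk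
      obtain ⟨t, ht, h7⟩ := Z_fin f1 (f3 k (Finset.mem_range.1 hk)) x.1
      let a : GG Λ := mp (fun p => (p.1, z k p.1)) x ⟨t⁻¹, Λ.inv_mem (f2 ht), h7⟩
      have a1 : rG a = x := by
        have e1 : sG x = x := hx
        have e2 : rG a = rG x := rfl
        rw [e2, ← e1]
        rfl
      have a2 : Z (z k) ∈ a.1 :=
        ms x.1 (C := (fun p => (p.1, z k p.1)) ⁻¹' Z (z k)) Filter.univ_mem fun _ _ => rfl
      have h8 := hasSum_single (f := fun h : {h // rG h = x} =>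
        if Z (z k) ∈ h.1.1 then (1 : ℝ) else 0) ⟨a, a1⟩ fun b hb =>
          if_neg fun h => hb (Subtype.ext (Z_uniq (b.2.trans a1.symm) h a2))
      rwa [if_pos a2] at h8
    have h6 := (hasSum_sum h5).div_const ((n : ℝ) + 1)
    rwa [Finset.sum_const, Finset.card_range, nsmul_eq_mul, mul_one, Nat.cast_add, Nat.cast_one,
      div_self hn.ne'] at h6
  · obtain ⟨t, ht, h5⟩ := h3 g hg
    let J := (Finset.range (n + 1)).filter fun k => {p : X × X | z k (t p.2) = z k p.2} ∉ g.1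
    have hJ : J.card ≤ d := by
      have h6 : (⋂ k ∈ J, {p : X × X | z k (t p.2) = z k p.2}ᶜ) ∈ (g.1 : Filter (X × X)) :=
        (Filter.biInter_finset_mem J).2 fun k hk =>
          Ultrafilter.compl_mem_iff_notMem.2 (Finset.mem_filter.1 hk).2
      obtain ⟨p, hp⟩ := g.1.nonempty_of_mem h6
      refine (Finset.card_le_card fun k hk => ?_).trans (h4 t ht p.2)
      exact Finset.mem_filter.2 ⟨(Finset.mem_filter.1 hk).1, Set.mem_iInter₂.1 hp k hk⟩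
    have h7 : ∀ k ∈ Finset.range (n + 1), ∑ h ∈ T, |(if Z (z k) ∈ (mG g h).1 then (1 : ℝ) else 0) -
        if Z (z k) ∈ h.1 then 1 else 0| ≤ if k ∈ J then 2 else 0 := by
      intro k hk
      have h8 : ∀ h ∈ T, Z (z k) ∈ (mG g h).1 ↔ Z (z k ∘ t) ∈ h.1 := fun h hh => by
        rw [mG_eq (hT h hh).symm (h2 ht) h5]
        rfl
      split_ifs with e
      · have b1 := one_le (z := z k ∘ t) hT
        have b2 := one_le (z := z k) hT
        refine le_trans (Finset.sum_le_sum fun h hh => ?_)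
          ((Finset.sum_add_distrib.trans_le (add_le_add b1 b2)).trans (by norm_num))
        rw [if_congr (h8 h hh) rfl rfl]
        split_ifs <;> norm_num
      · refine (Finset.sum_eq_zero fun h hh => ?_).le
        have b1 : {p : X × X | z k (t p.2) = z k p.2} ∈ g.1 :=
          by_contra fun h => e (Finset.mem_filter.2 ⟨hk, h⟩)
        have b2 := (key (hT h hh).symm {y | z k (t y) = z k y}).1 b1
        have b3 : Z (z k ∘ t) ∈ h.1 ↔ Z (z k) ∈ h.1 :=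
          ⟨fun a => ms h.1 (mi a b2) fun p hp => Eq.trans hp.1 hp.2,
            fun a => ms h.1 (mi a b2) fun p hp => Eq.trans hp.1 (Eq.symm hp.2)⟩
        rw [if_congr ((h8 h hh).trans b3) rfl rfl, sub_self, abs_zero]
    have h9 := Finset.sum_le_sum h7
    rw [Finset.sum_comm, Finset.sum_ite_mem, Finset.sum_const, nsmul_eq_mul,
      Finset.inter_eq_right.2 (Finset.filter_subset _ _)] at h9
    have h10 : (J.card : ℝ) ≤ d := by exact_mod_cast hJ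
    rw [le_div_iff₀ hn, Finset.sum_mul]
    refine le_trans (Finset.sum_le_sum fun h _ => ?_) (h9.trans (by linarith))
    rw [← sub_div, abs_div, abs_of_pos hn, div_mul_cancel₀ _ hn.ne', ← Finset.sum_sub_distrib]
    exact Finset.abs_sum_le_sum_abs _ _

theorem amenable {d : ℕ} (hP : P1 Λ d) : Amenable (ET Λ) := by
  choose ξ h1 h2 using fun i : {K : Set (GG Λ) // IsCompact K} × ℕ => amen1 hP i.1.2 i.2
  refine ⟨{K : Set (GG Λ) // IsCompact K} × ℕ, inferInstance, ⟨fun a b =>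
    ⟨(⟨a.1.1 ∪ b.1.1, a.1.2.union b.1.2⟩, max a.2 b.2), ⟨Set.subset_union_left, le_max_left _ _⟩,
      Set.subset_union_right, le_max_right _ _⟩⟩, ⟨(⟨∅, isCompact_empty⟩, 0)⟩, ξ, h1,
    fun K hK ε hε => ?_⟩
  obtain ⟨n, hn⟩ := exists_nat_ge (2 * d / ε)
  refine ⟨(⟨K, hK⟩, n), fun i hi g hg T hT => (h2 i g (hi.1 hg) T hT).trans ?_⟩
  have h3 : (n : ℝ) ≤ i.2 := by exact_mod_cast hi.2
  rw [div_le_iff₀ hε] at hn
  rw [div_le_iff₀ (by positivity)]
  nlinarith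

theorem P1_Lam : P1 Lam 3 := by
  intro F h1 h2
  obtain ⟨S, hS, r, h3⟩ := L1' D h1 h2
  obtain ⟨D0, h4⟩ := all_good hS r
  choose c hc using h4
  obtain ⟨F', h5, h6, h7⟩ := L2 (hS.image D) (by rintro _ ⟨s, _, rfl⟩; exact D_ok s) D0
  refine ⟨fun z => finProdFinEquiv (c z.1 z.2), F', h5, h6.trans (sub_Lam S), fun x y h => ?_⟩
  have key : x.1 = y.1 ∧ ReflTransGen (St (R (D '' S) y.1) r (c y.1)) y.2 x.2 := by
    induction h with
    | rel a b h =>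
      obtain ⟨e, t, ht, rfl⟩ := h
      have h8 := h3 t ht b
      dsimp only at e
      rw [h8.1] at e
      exact ⟨h8.1, .single ⟨(finProdFinEquiv.injective e).symm, h8.2⟩⟩
    | refl a => exact ⟨rfl, .refl⟩
    | symm a b _ ih =>
      refine ⟨ih.1.symm, ?_⟩
      rw [ih.1]
      exact rtg_symm (fun u v h => ⟨h.1.symm, h.2.symm (R_symm _ _)⟩) ih.2
    | trans a b e _ _ ih ih' => exact ⟨ih.1.trans ih'.1, ih'.2.trans (ih'.1 ▸ ih.2)⟩
  obtain ⟨t, ht, e⟩ := h7 _ _ _ (hc _ _ _ key.2)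
  exact ⟨t, ht, by rw [← key.1] at e; rw [show x = (x.1, x.2) from rfl, e, key.1]⟩

end Pool.Agent.H.MP_b83b91_an
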